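import Pool.Agent.Run7.h245.SR.Iface2
import Pool.Agent.N169.PP.SD

/-!
# Piece CLF of project SR (helper245)

By helper711: the elements with even valuations form finitely many classes modulo squares.
-/

set_option autoImplicit false
set_option linter.all false

open Polynomial IsDedekindDomain NumberField nonZeroDivisors
open scoped Classical

namespace Pool.Agent.Run7.h711.SR

open Pool.Agent.Run7.h245.SR
open Pool.Agent.N783.PF
open Pool.Agent.N874.PP (Ev)
open Pool.Agent.N169.PP (exists_sqrt)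

section

variable (F : Type) [Field F] [NumberField F]

/-- the units modulo squares -/
abbrev UQ : Type := (𝓞 F)ˣ ⧸ (powMonoidHom 2 : (𝓞 F)ˣ →* (𝓞 F)ˣ).range

theorem uq_finite : Finite (UQ F) := by
  haveI : Group.FG (𝓞 F)ˣ := Group.fg_iff_monoid_fg.2 inferInstance
  haveI : Group.FG (UQ F) := inferInstance
  apply CommGroup.finite_of_fg_isMulTorsion
  intro x
  obtain ⟨u, rfl⟩ := QuotientGroup.mk_surjective x
  rw [isOfFinOrder_iff_pow_eq_one]
  refine ⟨2, two_pos, ?_⟩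
  rw [← QuotientGroup.mk_pow, QuotientGroup.eq_one_iff]
  exact ⟨u, rfl⟩

variable {F}

/-- an element with even valuations -/
structure EvN (y : F) : Prop where
  ne : y ≠ 0
  ev : ∀ w : HeightOneSpectrum (𝓞 F), Ev w y

theorem ex_I {y : F} (h : EvN y) : ∃ I : (FractionalIdeal (𝓞 F)⁰ F)ˣ,
    (I : FractionalIdeal (𝓞 F)⁰ F) * I = FractionalIdeal.spanSingleton (𝓞 F)⁰ y := by
  obtain ⟨I, h0, hI⟩ := exists_sqrt y h.ne h.ev
  exact ⟨Units.mk0 I h0, hI⟩

noncomputable def idl (y : F) : (FractionalIdeal (𝓞 F)⁰ F)ˣ :=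
  if h : EvN y then (ex_I h).choose else 1

theorem idl_spec {y : F} (h : EvN y) : (idl y : FractionalIdeal (𝓞 F)⁰ F) * idl y =
    FractionalIdeal.spanSingleton (𝓞 F)⁰ y := by
  unfold idl
  rw [dif_pos h]
  exact (ex_I h).choose_spec

/-- the class -/
noncomputable def cls (y : F) : ClassGroup (𝓞 F) := ClassGroup.mk F (idl y)

theorem rel {y y' : F} (h : EvN y) (h' : EvN y')
    (hc : cls y = cls y') :
    ∃ (c : F) (ε : (𝓞 F)ˣ), c ≠ 0 ∧ y' = y * c ^ 2 * ((ε : 𝓞 F) : F) := by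
  have h1 : (ClassGroup.mk F (idl y' / idl y)) = 1 := by
    unfold cls at hc
    rw [_root_.map_div, hc, div_self']
  rw [ClassGroup.mk_eq_one_iff] at h1
  rw [FractionalIdeal.isPrincipal_iff] at h1
  obtain ⟨c, hc⟩ := h1
  have h2 : (idl y' : FractionalIdeal (𝓞 F)⁰ F) =
      idl y * FractionalIdeal.spanSingleton (𝓞 F)⁰ c := by
    rw [← hc, ← Units.val_mul, mul_div_cancel]
  have h3 : FractionalIdeal.spanSingleton (𝓞 F)⁰ (y * c ^ 2) =
      FractionalIdeal.spanSingleton (𝓞 F)⁰ y' := by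
    rw [← idl_spec h', h2, sq, ← FractionalIdeal.spanSingleton_mul_spanSingleton,
      ← FractionalIdeal.spanSingleton_mul_spanSingleton, ← idl_spec h]
    ring
  rw [FractionalIdeal.spanSingleton_eq_spanSingleton] at h3
  obtain ⟨ε, hε⟩ := h3
  have h4 : y' = y * c ^ 2 * ((ε : 𝓞 F) : F) := by
    rw [← hε, Units.smul_def, Algebra.smul_def]
    ring
  refine ⟨c, ε, ?_, h4⟩
  rintro rfl
  apply h'.ne
  rw [h4]
  ring

/-- a representative -/
noncomputable def rep (k : ClassGroup (𝓞 F)) : F :=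
  if h : ∃ y : F, EvN y ∧ cls y = k then h.choose else 1

theorem rep_spec {y : F} (h : EvN y) : ∃ (c : F) (ε : (𝓞 F)ˣ), c ≠ 0 ∧
    y = rep (cls y) * c ^ 2 * ((ε : 𝓞 F) : F) := by
  have hex : ∃ z : F, EvN z ∧ cls z = cls y := ⟨y, h, rfl⟩
  have h1 := hex.choose_spec
  have h2 : rep (cls y) = hex.choose := by
    unfold rep
    rw [dif_pos hex]
  rw [h2]
  exact rel h1.1 h h1.2

noncomputable def unt (y : F) : (𝓞 F)ˣ :=
  if h : EvN y then (rep_spec h).choose_spec.choose else 1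

theorem unt_spec {y : F} (h : EvN y) : ∃ c : F, c ≠ 0 ∧
    y = rep (cls y) * c ^ 2 * ((unt y : 𝓞 F) : F) := by
  refine ⟨(rep_spec h).choose, (rep_spec h).choose_spec.choose_spec.1, ?_⟩
  unfold unt
  rw [dif_pos h]
  exact (rep_spec h).choose_spec.choose_spec.2

end

/-- **CLF.** -/
theorem clf : S_CLF := by
  intro F _ _
  haveI := uq_finite F
  haveI : Finite (ClassGroup (𝓞 F) × UQ F) := inferInstance
  obtain ⟨n, ⟨e⟩⟩ := Finite.exists_equiv_fin (ClassGroup (𝓞 F) × UQ F)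
  refine ⟨n, fun y => e (cls y, QuotientGroup.mk (unt y)), ?_⟩
  intro y y' hy hy' hev hev' hcl
  have h : EvN y := ⟨hy, hev⟩
  have h' : EvN y' := ⟨hy', hev'⟩
  have h1 := e.injective hcl
  rw [Prod.mk.injEq] at h1
  obtain ⟨h1, h2⟩ := h1
  obtain ⟨c, hc, e1⟩ := unt_spec h
  obtain ⟨c', hc', e2⟩ := unt_spec h'
  rw [← h1] at e2
  rw [QuotientGroup.eq] at h2
  obtain ⟨v, hv⟩ := h2
  have h3 : unt y' = unt y * v ^ 2 := by
    have : (powMonoidHom 2 : (𝓞 F)ˣ →* (𝓞 F)ˣ) v = v ^ 2 := rfl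
    rw [this] at hv
    rw [hv, mul_inv_cancel_left]
  refine ⟨rep (cls y) * c * c' * ((unt y : 𝓞 F) : F) * ((v : 𝓞 F) : F), ?_⟩
  rw [h3] at e2
  generalize unt y = ε at e1 e2 ⊢
  generalize rep (cls y) = r at e1 e2 ⊢
  have e3 : (((ε * v ^ 2 : (𝓞 F)ˣ) : 𝓞 F) : F) = ((ε : 𝓞 F) : F) * ((v : 𝓞 F) : F) ^ 2 := by
    simp
  rw [e3] at e2
  rw [e1, e2]
  ring

end Pool.Agent.Run7.h711.SR
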