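import Pool.Agent.Run7.h245.SR.Iface2
import Pool.Agent.Run7.h245.NF.Re

/-!
# Piece SQR of project SR (helper245)

By helper711: elements which are positive at all real places are squares at the real places.
-/

set_option autoImplicit false
set_option linter.all false

open Polynomial IsDedekindDomain NumberField
open scoped Classical

namespace Pool.Agent.Run7.h711.SR

open Pool.Agent.Run7.h245.SR
open Pool.Agent.N783.PF

section

variable {F L : Type} [Field F] [NumberField F] [Field L] [NumberField L] [Algebra F L]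
  {g : ℕ} {f : (𝓞 F)[X]} {θ : L}

/-- the power basis -/
noncomputable def pbs (h : IsGen g f θ) : PowerBasis F L :=
  ⟨θ, 2 * g + 1, h.basis, fun i => h.basis_apply i⟩

theorem minp (h : IsGen g f θ) : minpoly F θ = fF f := by
  have hdeg : (minpoly F θ).natDegree = 2 * g + 1 := (pbs h).natDegree_minpoly
  have hint : IsIntegral F θ := (pbs h).isIntegral_gen
  have hmon : (fF f).Monic := h.mon.map _
  have hd : minpoly F θ ∣ fF f := minpoly.dvd F θ h.root
  exact (Polynomial.eq_of_monic_of_dvd_of_natDegree_le (minpoly.monic hint) hmon hd (by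
      rw [hdeg, fF, h.mon.natDegree_map, h.deg])).symm

theorem irrF (h : IsGen g f θ) : Irreducible (fF f) := by
  rw [← minp h]
  exact minpoly.irreducible (pbs h).isIntegral_gen

/-- the real embedding belonging to a real zero -/
theorem ex_rho (h : IsGen g f θ) (σ : F →+* ℝ) (e : ℝ) (he : ((fF f).map σ).eval e = 0) :
    ∃ ρ : L →+* ℝ, ∀ p : F[X], ρ (aeval θ p) = (p.map σ).eval e := by
  letI : Algebra F ℝ := σ.toAlgebra
  have h1 : aeval e (minpoly F (pbs h).gen) = 0 := by
    have h2 : minpoly F (pbs h).gen = fF f := minp h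
    rw [h2, aeval_def, eval₂_eq_eval_map]
    exact he
  refine ⟨((pbs h).lift e h1).toRingHom, fun p => ?_⟩
  have h3 : (pbs h).lift e h1 (pbs h).gen = e := (pbs h).lift_gen e h1
  have h4 : (pbs h).lift e h1 (aeval θ p) = aeval e p := by
    rw [← aeval_algHom_apply]
    congr 1
    exact congrArg (fun z => (aeval z : F[X] →ₐ[F] ℝ)) h3
  have h5 : aeval e p = (p.map σ).eval e := by
    rw [aeval_def, eval₂_eq_eval_map]
    rfl
  exact h4.trans h5

end

/-- three real zeros -/
theorem three (p : ℝ[X]) (s : Finset ℝ) (h : ∀ e ∈ s, 0 ≤ p.eval e) :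
    ∃ q : ℝ[X], (∏ e ∈ s, (X - C e)) ∣ p - q ^ 2 := by
  refine ⟨Lagrange.interpolate s id fun e => Real.sqrt (p.eval e), ?_⟩
  refine Finset.prod_dvd_of_coprime ?_ ?_
  · intro a _ b _ hab
    exact isCoprime_X_sub_C_of_isUnit_sub (sub_ne_zero.2 hab).isUnit
  · intro e he
    rw [dvd_iff_isRoot, IsRoot.def, eval_sub, eval_pow]
    have h1 := Lagrange.eval_interpolate_at_node (fun e => Real.sqrt (p.eval e))
      (Set.injOn_id (s : Set ℝ)) he
    simp only [id] at h1
    rw [h1, Real.sq_sqrt (h e he), sub_self]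

/-- a polynomial which is positive at the real zeros of a separable cubic polynomial is a square -/
theorem sq_cubic (a b : ℝ) (hsep : (X ^ 3 + C a * X + C b : ℝ[X]).Separable) (p : ℝ[X])
    (h : ∀ e : ℝ, e ^ 3 + a * e + b = 0 → 0 < p.eval e) :
    ∃ q : ℝ[X], (X ^ 3 + C a * X + C b) ∣ p - q ^ 2 := by
  have hns : ∀ e : ℝ, ¬ (X - C e) * (X - C e) ∣ (X ^ 3 + C a * X + C b : ℝ[X]) := by
    intro e he
    exact (irreducible_X_sub_C e).not_isUnit (hsep.squarefree _ he)
  obtain ⟨r, hr⟩ := Pool.Agent.Run7.h245.NF.real_exists a b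
  have hb : b = -(r ^ 3 + a * r) := by linarith
  have hfac : (X ^ 3 + C a * X + C b : ℝ[X]) = (X - C r) * (X ^ 2 + C r * X + C (r ^ 2 + a)) := by
    rw [hb]
    simp only [map_neg, map_add, map_mul, map_pow]
    ring
  rcases lt_trichotomy (3 * r ^ 2 + 4 * a) 0 with hq | hq | hq
  · -- three real zeros
    set δ : ℝ := Real.sqrt (-(3 * r ^ 2 + 4 * a)) with hδ
    have hδ0 : 0 < δ := Real.sqrt_pos.2 (by linarith)
    have hδ2 : δ ^ 2 = -(3 * r ^ 2 + 4 * a) := Real.sq_sqrt (by linarith)
    have hfac2 : (X ^ 3 + C a * X + C b : ℝ[X]) =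
        (X - C r) * ((X - C ((-r + δ) / 2)) * (X - C ((-r - δ) / 2))) := by
      rw [hfac]
      congr 1
      have e1 : a = -(δ ^ 2 + 3 * r ^ 2) / 4 := by linarith
      have e2 : (X - C ((-r + δ) / 2)) * (X - C ((-r - δ) / 2)) =
          X ^ 2 - C ((-r + δ) / 2 + (-r - δ) / 2) * X + C ((-r + δ) / 2 * ((-r - δ) / 2)) := by
        simp only [map_add, map_mul]
        ring
      rw [e2]
      have e3 : (-r + δ) / 2 + (-r - δ) / 2 = -r := by ring
      have e4 : (-r + δ) / 2 * ((-r - δ) / 2) = r ^ 2 + a := by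
        rw [e1]; ring
      rw [e3, e4]
      simp
    have hne1 : (-r + δ) / 2 ≠ (-r - δ) / 2 := by
      intro h1
      have : δ = 0 := by linarith
      exact hδ0.ne' this
    have hd1 : r ≠ (-r + δ) / 2 := by
      intro h1
      apply hns r
      rw [hfac2, ← h1]
      exact ⟨(X - C ((-r - δ) / 2)), by ring⟩
    have hd2 : r ≠ (-r - δ) / 2 := by
      intro h1
      apply hns r
      rw [hfac2, ← h1]
      exact ⟨(X - C ((-r + δ) / 2)), by ring⟩
    have hroot : ∀ e ∈ ({r, (-r + δ) / 2, (-r - δ) / 2} : Finset ℝ), 0 ≤ p.eval e := by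
      intro e he
      refine (h e ?_).le
      have h1 : (X ^ 3 + C a * X + C b : ℝ[X]).eval e = 0 := by
        rw [hfac2]
        simp only [eval_mul, eval_sub, eval_X, eval_C]
        simp only [Finset.mem_insert, Finset.mem_singleton] at he
        rcases he with he | he | he
        · rw [he]; ring
        · rw [he]; ring
        · rw [he]; ring
      simpa using h1
    obtain ⟨q, hq1⟩ := three p _ hroot
    refine ⟨q, ?_⟩
    rw [hfac2]
    rw [Finset.prod_insert, Finset.prod_insert, Finset.prod_singleton] at hq1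
    · exact hq1
    · rw [Finset.mem_singleton]
      exact hne1
    · rw [Finset.mem_insert, Finset.mem_singleton]
      rintro (h1 | h1)
      · exact hd1 h1
      · exact hd2 h1
  · exfalso
    apply hns (-r / 2)
    rw [hfac]
    refine Dvd.dvd.mul_left ?_ _
    have e1 : a = -(3 * r ^ 2) / 4 := by linarith
    have e2 : r ^ 2 + a = (-r / 2) * (-r / 2) := by rw [e1]; ring
    rw [e2]
    have e3 : (C r : ℝ[X]) = - (C (-r / 2) + C (-r / 2)) := by
      rw [← map_add, ← map_neg]
      congr 1
      ring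
    rw [e3, map_mul]
    exact ⟨1, by ring⟩
  · rw [hfac]
    exact Pool.Agent.Run7.h245.NF.exists_sq p hq (h r hr).le

/-- **SQR.** -/
theorem sqr : S_SQR := by
  intro F L _ _ _ _ _ f θ hG hf2 h₀ hpos σ
  have hm : f = X ^ 3 + C (f.coeff 1) * X + C (f.coeff 0) := by
    have hd : f.natDegree = 3 := hG.deg
    have h3 : f.coeff 3 = 1 := by
      have := hG.mon.coeff_natDegree
      rwa [hd] at this
    ext1 i
    simp only [coeff_add, coeff_X_pow, coeff_C_mul, coeff_X, coeff_C]
    rcases lt_or_ge 3 i with hi | hi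
    · rw [coeff_eq_zero_of_natDegree_lt (by omega)]
      rw [if_neg (by omega), if_neg (by omega), if_neg (by omega)]
      ring
    · interval_cases i
      · simp
      · simp
      · simp [hf2]
      · simp [h3]
  have hmap : (fF f).map σ = X ^ 3 + C (σ ((f.coeff 1 : 𝓞 F) : F)) * X +
      C (σ ((f.coeff 0 : 𝓞 F) : F)) := by
    rw [fF]
    conv_lhs => rw [hm]
    simp
  have hsep : ((fF f).map σ).Separable := (irrF hG).separable.map
  rw [hmap] at hsep ⊢
  refine sq_cubic _ _ hsep (h₀.map σ) fun e he => ?_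
  obtain ⟨ρ, hρ⟩ := ex_rho hG σ e (by rw [hmap]; simpa using he)
  rw [← hρ]
  exact hpos ρ

end Pool.Agent.Run7.h711.SR
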