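import Pool.Agent.Run7.h245.SR.Iface1
import Pool.Agent.N862.PF.SD

/-!
# Piece SDR of project SR (helper245)

By helper711, after `Pool/Agent/N862/PF/SD.lean` (helper862). The lattice is `{x : x ^ 2 / α integral}`.
-/

set_option autoImplicit false
set_option linter.all false

open Polynomial IsDedekindDomain Matrix NumberField WithZero
open scoped Classical

namespace Pool.Agent.Run7.h711.SR

open Pool.Agent.Run7.h245.SR
open Pool.Agent.N783.PF
open Pool.Agent.N862.PF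
open Pool.Agent.N874.PP (Ev Sq1 U0)

section

variable {L : Type} [Field L] [NumberField L]

theorem mul_int {α x y : L} (hx : IsIntegral ℤ (x ^ 2 / α)) (hy : IsIntegral ℤ (y ^ 2 / α)) :
    IsIntegral ℤ (x * y / α) := by
  have h1 : IsIntegral ℤ ((x * y / α) ^ 2) := by
    have h2 : (x * y / α) ^ 2 = (x ^ 2 / α) * (y ^ 2 / α) := by ring
    rw [h2]
    exact hx.mul hy
  exact IsIntegral.of_pow two_pos h1

/-- the lattice over the ring of integers of `L` -/
noncomputable def lam (α : L) : Submodule (𝓞 L) L where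
  carrier := {x | IsIntegral ℤ (x ^ 2 / α)}
  add_mem' := by
    intro x y hx hy
    have hx' : IsIntegral ℤ (x ^ 2 / α) := hx
    have hy' : IsIntegral ℤ (y ^ 2 / α) := hy
    show IsIntegral ℤ ((x + y) ^ 2 / α)
    have h2 : (x + y) ^ 2 / α = x ^ 2 / α + y ^ 2 / α + (x * y / α + x * y / α) := by ring
    rw [h2]
    exact (hx'.add hy').add ((mul_int hx' hy').add (mul_int hx' hy'))
  zero_mem' := by
    show IsIntegral ℤ ((0 : L) ^ 2 / α)
    rw [zero_pow two_ne_zero, zero_div]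
    exact isIntegral_zero
  smul_mem' := by
    intro c x hx
    have hx' : IsIntegral ℤ (x ^ 2 / α) := hx
    show IsIntegral ℤ ((c • x) ^ 2 / α)
    have h2 : (c • x) ^ 2 / α = algebraMap (𝓞 L) L (c ^ 2) * (x ^ 2 / α) := by
      rw [Algebra.smul_def, map_pow]
      ring
    rw [h2]
    exact ((int_iff _).2 ⟨_, rfl⟩).mul hx'

theorem mem_lam {α x : L} : x ∈ lam α ↔ IsIntegral ℤ (x ^ 2 / α) := Iff.rfl

theorem lam_fin {α : L} (hα : α ≠ 0) : Module.Finite (𝓞 L) (lam α) := by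
  obtain ⟨a, b, hab⟩ := IsLocalization.exists_mk'_eq (nonZeroDivisors (𝓞 L)) α
  have hb : (b : 𝓞 L) ≠ 0 := nonZeroDivisors.ne_zero b.2
  have hbL : algebraMap (𝓞 L) L b ≠ 0 := by
    rw [ne_eq, map_eq_zero_iff _ (IsFractionRing.injective (𝓞 L) L)]
    exact hb
  rw [IsFractionRing.mk'_eq_div] at hab
  -- multiplication by `b`
  have hmul : ∀ x ∈ lam α, IsIntegral ℤ (algebraMap (𝓞 L) L b * x) := by
    intro x hx
    rw [mem_lam] at hx
    have h1 : (algebraMap (𝓞 L) L b * x) ^ 2 =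
        algebraMap (𝓞 L) L (a * b) * (x ^ 2 / α) := by
      rw [map_mul]
      have h2 : algebraMap (𝓞 L) L a = α * algebraMap (𝓞 L) L b := by
        rw [← hab]
        field_simp
      rw [h2]
      field_simp
    have h3 : IsIntegral ℤ ((algebraMap (𝓞 L) L b * x) ^ 2) := by
      rw [h1]
      exact ((int_iff _).2 ⟨_, rfl⟩).mul hx
    exact IsIntegral.of_pow two_pos h3
  let N : Submodule (𝓞 L) L := Submodule.span (𝓞 L) {(algebraMap (𝓞 L) L b)⁻¹}
  have hle : lam α ≤ N := by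
    intro x hx
    obtain ⟨z, hz⟩ := (int_iff _).1 (hmul x hx)
    rw [Submodule.mem_span_singleton]
    refine ⟨z, ?_⟩
    rw [Algebra.smul_def, hz]
    field_simp
  haveI : Module.Finite (𝓞 L) N := inferInstance
  haveI : IsNoetherian (𝓞 L) N := inferInstance
  haveI : IsNoetherian (𝓞 L) (lam α) := isNoetherian_of_le hle
  exact inferInstance

/-- an element of the lattice whose valuation at `𝔓` is given -/
theorem adjust {α z : L} (hα : α ≠ 0) (𝔓 : HeightOneSpectrum (𝓞 L))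
    (h : 𝔓.valuation L (z ^ 2 / α) ≤ 1) :
    ∃ x ∈ lam α, 𝔓.valuation L x = 𝔓.valuation L z := by
  obtain ⟨n, d, hnd⟩ := 𝔓.exists_primeCompl_mul_eq_of_integer (z ^ 2 / α) h
  have hd : (d : 𝓞 L) ∉ 𝔓.asIdeal := d.2
  refine ⟨z * algebraMap (𝓞 L) L d, ?_, ?_⟩
  · rw [mem_lam]
    have h1 : (z * algebraMap (𝓞 L) L d) ^ 2 / α = algebraMap (𝓞 L) L (d * n) := by
      rw [map_mul, ← hnd]
      ring
    rw [h1]
    exact (int_iff _).2 ⟨_, rfl⟩
  · rw [map_mul]
    have h2 : 𝔓.valuation L (algebraMap (𝓞 L) L d) = 1 := by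
      apply le_antisymm (𝔓.valuation_le_one _)
      by_contra hlt
      rw [not_le] at hlt
      exact hd ((𝔓.valuation_lt_one_iff_mem (K := L) _).1 hlt)
    rw [h2, mul_one]

/-- the local element -/
theorem local_elt {α : L} {m : 𝓞 L} (hα : α ≠ 0) (𝔓 : HeightOneSpectrum (𝓞 L))
    (h : Ev 𝔓 α ∨ m ∈ 𝔓.asIdeal) : ∃ z : L, z ≠ 0 ∧ 𝔓.valuation L (z ^ 2 / α) ≤ 1 ∧
      𝔓.valuation L (algebraMap (𝓞 L) L m) ^ 2 * 𝔓.valuation L α ≤ 𝔓.valuation L z ^ 2 := by
  have hvα : 𝔓.valuation L α ≠ 0 := (Valuation.ne_zero_iff _).2 hα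
  by_cases hev : Ev 𝔓 α
  · obtain ⟨z, hz⟩ := hev
    have hz0 : z ≠ 0 := by
      rintro rfl
      rw [map_zero, zero_pow two_ne_zero] at hz
      exact hvα hz
    refine ⟨z, hz0, ?_, ?_⟩
    · rw [map_div₀, map_pow, ← hz, div_self hvα]
    · rw [← hz]
      calc _ ≤ 1 * 𝔓.valuation L α :=
            mul_le_mul_left (pow_le_one₀ zero_le (𝔓.valuation_le_one m)) _
        _ = _ := one_mul _
  · have hm : m ∈ 𝔓.asIdeal := h.resolve_left hev
    obtain ⟨n, hn⟩ : ∃ n : ℤ, 𝔓.valuation L α = WithZero.exp n :=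
      ⟨_, (WithZero.exp_log hvα).symm⟩
    obtain ⟨π, hπ⟩ := 𝔓.valuation_exists_uniformizer L
    have hπ0 : π ≠ 0 := by
      rintro rfl
      rw [map_zero] at hπ
      exact WithZero.exp_ne_zero hπ.symm
    have hodd : Odd n := by
      by_contra hne
      rw [Int.not_odd_iff_even] at hne
      obtain ⟨k, hk⟩ := hne
      apply hev
      refine ⟨π ^ (-k), ?_⟩
      rw [map_zpow₀, hπ, hn, ← WithZero.exp_zsmul, ← WithZero.exp_nsmul]
      congr 1
      rw [hk]
      simp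
      ring
    obtain ⟨k, hk⟩ := hodd
    have hzv : 𝔓.valuation L (π ^ (-k)) ^ 2 = WithZero.exp (n - 1) := by
      rw [map_zpow₀, hπ, ← WithZero.exp_zsmul, ← WithZero.exp_nsmul]
      congr 1
      rw [hk]
      simp
    refine ⟨π ^ (-k), zpow_ne_zero _ hπ0, ?_, ?_⟩
    · rw [map_div₀, map_pow, hzv, hn, ← WithZero.exp_sub, ← WithZero.exp_zero, WithZero.exp_le_exp]
      omega
    · rw [hzv, hn]
      have h1 : 𝔓.valuation L (algebraMap (𝓞 L) L m) ≤ WithZero.exp (-1 : ℤ) := by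
        rw [HeightOneSpectrum.valuation_of_algebraMap]
        have h2 := (𝔓.intValuation_le_pow_iff_mem m 1).2 (by rwa [pow_one])
        simpa using h2
      calc _ ≤ (WithZero.exp (-1 : ℤ)) ^ 2 * WithZero.exp n :=
            mul_le_mul_left (pow_le_pow_left₀ zero_le h1 2) _
        _ = WithZero.exp (n - 2) := by
            rw [← WithZero.exp_nsmul, ← WithZero.exp_add]
            congr 1
            simp
            ring
        _ ≤ _ := by
            rw [WithZero.exp_le_exp]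
            omega

end

/-- **SDR.** -/
theorem sdr (hI : S_INT) : S_SDR := by
  intro g F L _ _ _ _ _ f θ hc hs m₀ α hm₀ hα hev
  have hint := hI g F L f θ hc hs
  obtain ⟨t, ht⟩ := theta_ex hc
  let Λ : Submodule (𝓞 F) L := (lam α).restrictScalars (𝓞 F)
  have hΛ : ∀ x : L, x ∈ Λ ↔ IsIntegral ℤ (x ^ 2 / α) := fun x => Iff.rfl
  have hdual : ∀ y : L, (∀ x ∈ lam α, IsIntegral ℤ (x * y / α)) →
      IsIntegral ℤ (((m₀ : L) * y) ^ 2 / α) := by
    intro y hy
    rw [int_iff]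
    refine HeightOneSpectrum.mem_integers_of_valuation_le_one L _ fun 𝔓 => ?_
    have hvα : 𝔓.valuation L α ≠ 0 := (Valuation.ne_zero_iff _).2 hα
    obtain ⟨z, hz0, hz1, hz2⟩ := local_elt hα 𝔓 (hev 𝔓)
    obtain ⟨x, hx, hxv⟩ := adjust hα 𝔓 hz1
    have hvz : 𝔓.valuation L z ≠ 0 := (Valuation.ne_zero_iff _).2 hz0
    obtain ⟨w, hw⟩ := (int_iff _).1 (hy x hx)
    have h1 : 𝔓.valuation L (x * y / α) ≤ 1 := by
      rw [← hw]
      exact 𝔓.valuation_le_one w
    rw [map_div₀, map_mul, hxv, div_le_one₀ (zero_lt_iff.2 hvα)] at h1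
    rw [map_div₀, map_pow, map_mul, div_le_one₀ (zero_lt_iff.2 hvα)]
    have h2 : 𝔓.valuation L (m₀ : L) = 𝔓.valuation L (algebraMap (𝓞 L) L (m₀ : 𝓞 L)) := by
      exact congrArg _ (map_natCast (algebraMap (𝓞 L) L) m₀).symm
    rw [h2]
    have hvz2 : 0 < 𝔓.valuation L z ^ 2 := zero_lt_iff.2 (pow_ne_zero 2 hvz)
    have h3 : (𝔓.valuation L (algebraMap (𝓞 L) L (m₀ : 𝓞 L)) * 𝔓.valuation L y) ^ 2 *
        𝔓.valuation L z ^ 2 ≤ 𝔓.valuation L α * 𝔓.valuation L z ^ 2 := by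
      calc _ = 𝔓.valuation L (algebraMap (𝓞 L) L (m₀ : 𝓞 L)) ^ 2 *
            (𝔓.valuation L z * 𝔓.valuation L y) ^ 2 := by
            rw [mul_pow, mul_pow, mul_assoc, mul_comm (𝔓.valuation L y ^ 2)]
        _ ≤ 𝔓.valuation L (algebraMap (𝓞 L) L (m₀ : 𝓞 L)) ^ 2 * 𝔓.valuation L α ^ 2 :=
            mul_le_mul_right (pow_le_pow_left₀ zero_le h1 2) _
        _ = 𝔓.valuation L α * (𝔓.valuation L (algebraMap (𝓞 L) L (m₀ : 𝓞 L)) ^ 2 *
              𝔓.valuation L α) := by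
            rw [sq (𝔓.valuation L α), ← mul_assoc, mul_comm]
        _ ≤ _ := mul_le_mul_right hz2 _
    exact le_of_mul_le_mul_right h3 hvz2
  refine ⟨Λ, fun x => hΛ x, ?_⟩
  constructor
  · haveI := lam_fin hα
    haveI h2 : Module.Finite (𝓞 F) (lam α) := Module.Finite.trans (𝓞 L) _
    haveI h3 : Module.Finite (𝓞 F) Λ := h2
    exact Module.Finite.iff_fg.1 h3
  · intro x
    have halg : IsAlgebraic ℤ (x ^ 2 / α) :=
      (IsFractionRing.isAlgebraic_iff ℤ ℚ L).2 (Algebra.IsAlgebraic.isAlgebraic _)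
    obtain ⟨b, hb0, hb⟩ := halg.exists_integral_multiple
    refine ⟨(b : 𝓞 F), by exact_mod_cast hb0, ?_⟩
    rw [hΛ]
    have h4 : ((b : 𝓞 F) • x) ^ 2 / α = (b : L) * (b • (x ^ 2 / α)) := by
      rw [Algebra.smul_def, map_intCast, zsmul_eq_mul]
      ring
    rw [h4]
    exact (isIntegral_algebraMap (R := ℤ) (A := L) (x := b)).mul hb
  · intro x hx
    rw [hΛ] at hx ⊢
    have h4 : (θ * x) ^ 2 / α = θ ^ 2 * (x ^ 2 / α) := by ring
    rw [h4]
    exact ((theta_int hc).pow 2).mul hx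
  · intro x hx y hy
    exact top_int hc hint (mul_int hx hy)
  · intro y hy
    rw [hΛ]
    apply hdual
    intro x hx
    apply int_of_top hc hint
    intro m _
    have h5 : x * y / α * θ ^ m = (t ^ m • x) * y / α := by
      rw [Algebra.smul_def, map_pow, ht]
      ring
    rw [h5]
    exact hy _ (Submodule.smul_mem (lam α) (t ^ m) hx)

end Pool.Agent.Run7.h711.SR
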