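import Pool.Agent.Run7.h245.SR.Iface2
import Pool.Agent.N426.PF.Par

/-!
# Piece NEV of project SR (helper245)

By helper711, after `Pool/Agent/N426/PF/Par.lean` (helper426). The norm of an element has even valuations if
the element has even valuations at the primes of odd degree.
-/

set_option autoImplicit false
set_option linter.all false

open Polynomial IsDedekindDomain WithZero UniqueFactorizationMonoid NumberField
open scoped Classical

namespace Pool.Agent.Run7.h711.SR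

open Pool.Agent.Run7.h245.SR
open Pool.Agent.N874.PP (Ev Sq1)
open Pool.Agent.N862.PP (val_eq ev_iff_count ev_mul_sq cn cn_sum cn_pow
  cn_zero cn_one not_ev_of_exp exists_two sq1_mul_sq)

section gen

variable {R K L O : Type} [CommRing R] [IsDedekindDomain R] [Field K]
  [Algebra R K] [IsFractionRing R K]
  [Field L] [Algebra K L] [Algebra R L] [IsScalarTower R K L] [CommRing O]
  [IsDedekindDomain O] [Algebra O L] [IsFractionRing O L] [Algebra R O]
  [IsScalarTower R O L] [IsIntegralClosure O R L]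

theorem norm_ev [FiniteDimensional K L] [Module.Finite R O] [Module.IsTorsionFree R O]
    (w : HeightOneSpectrum R) {x : L} (hx : x ≠ 0)
    (hoth : ∀ 𝔓 : HeightOneSpectrum O, Pool.Agent.N426.PF.Ov w.asIdeal 𝔓 → Ev 𝔓 x ∨
      Even (cn R w.asIdeal 𝔓.asIdeal)) : Ev w (Algebra.norm K x) := by
  obtain ⟨z₁, u, hu, rfl⟩ := IsFractionRing.div_surjective (A := O) x
  have hw0 : u ≠ 0 := nonZeroDivisors.ne_zero hu
  have hwL : algebraMap O L u ≠ 0 := by
    simpa using hw0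
  have hz0 : z₁ * u ≠ 0 := by
    rintro h0
    rcases mul_eq_zero.mp h0 with rfl | h0
    · simp at hx
    · exact hw0 h0
  have hxz : algebraMap O L z₁ / algebraMap O L u * algebraMap O L u ^ 2 =
      algebraMap O L (z₁ * u) := by
    rw [map_mul]
    field_simp
  have hev : ∀ 𝔓 : HeightOneSpectrum O, Ev 𝔓 (algebraMap O L z₁ / algebraMap O L u) ↔
      Even ((normalizedFactors (Ideal.span {z₁ * u})).count 𝔓.asIdeal) := by
    intro 𝔓
    rw [← ev_mul_sq 𝔓 hwL, hxz, ev_iff_count 𝔓 hz0]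
  have hnu : Algebra.norm K (algebraMap O L u) ≠ 0 := Algebra.norm_ne_zero_iff.mpr hwL
  have hN0 : Algebra.intNorm R O (z₁ * u) ≠ 0 := by
    rw [Ne, Algebra.intNorm_eq_zero]
    exact hz0
  have hzI : (Ideal.span {z₁ * u} : Ideal O) ≠ ⊥ := by
    rw [Ne, Ideal.span_singleton_eq_bot]
    exact hz0
  rw [← ev_mul_sq w hnu, ← map_pow, ← map_mul, hxz, ← Algebra.algebraMap_intNorm (A := R) (B := O),
    ev_iff_count w hN0]
  have e : (normalizedFactors (Ideal.span {Algebra.intNorm R O (z₁ * u)})).count w.asIdeal =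
      cn R w.asIdeal (Ideal.span {z₁ * u} : Ideal O) := by
    unfold cn
    rw [Ideal.relNorm_singleton]
  rw [e, cn_sum _ hzI]
  apply Finset.even_sum
  intro J hJ
  rw [Multiset.mem_toFinset] at hJ
  have hJp := prime_of_normalized_factor J hJ
  have hJ3 : J.IsPrime := Ideal.isPrime_of_prime hJp
  by_cases hJP : w.asIdeal ≤ J.comap (algebraMap R O)
  · let 𝔓 : HeightOneSpectrum O := ⟨J, hJ3, hJp.ne_zero⟩
    rcases hoth 𝔓 hJP with h1 | h1
    · exact ((hev 𝔓).mp h1).mul_right _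
    · exact h1.mul_left _
  · rw [cn_zero w.isPrime w.ne_bot hJ3 hJp.ne_zero hJP, mul_zero]
    exact ⟨0, rfl⟩

end gen

open Pool.Agent.N783.PF in
/-- **NEV.** -/
theorem nev (hInt : S_INT) (hE : S_EXQ) : S_NEV := by
  intro g W F L _ _ _ _ _ f θ S 𝔮 hh P hg h0 hsq hS hCg x hx hxu w
  have h := Pool.Agent.N426.PF.toG h0
  obtain ⟨t, b, ht, hb⟩ := Pool.Agent.N426.PF.setup hInt h0 hsq
  have hfin : Module.Finite (𝓞 F) (𝓞 L) := Module.Finite.of_basis b
  have htf : Module.IsTorsionFree (𝓞 F) (𝓞 L) := Pool.Agent.N426.PF.tf_O (K := F) (L := L)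
  have hfd := Pool.Agent.N426.PF.fd h
  have hpf := Pool.Agent.N426.PF.perf (F := F)
  refine norm_ev (R := 𝓞 F) (O := 𝓞 L) w hx fun 𝔓 hov => ?_
  by_cases hex : ∀ q ∈ S, Ov (𝔮 q) 𝔓 → 𝔓.valuation L θ ≠ 1
  · left
    refine ⟨1, ?_⟩
    rw [hxu 𝔓 hex, map_one, one_pow]
  · right
    push Not at hex
    obtain ⟨q, hqS, hovq, hθ⟩ := hex
    obtain ⟨𝔓₁, 𝔓₂, ov1, ov2, hv1, hv2, hQ1, hQ2, hall⟩ :=
      hE g W F L f θ S 𝔮 hh P hg h0 hsq hS q hqS (hCg q hqS)
    obtain ⟨hqp, -, -, -, -, hp, hqm, -⟩ := hS q hqS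
    have hq0 : (q : 𝓞 F) ≠ 0 := Nat.cast_ne_zero.2 hqp.ne_zero
    have hp0 : 𝔮 q ≠ ⊥ := by
      intro h'
      rw [h', Ideal.mem_bot] at hqm
      exact hq0 hqm
    have hw : w.asIdeal = 𝔮 q := by
      rw [← Pool.Agent.N426.PF.ov_comap w.isPrime w.ne_bot hov]
      exact Pool.Agent.N426.PF.ov_comap hp hp0 hovq
    have h𝔓 : 𝔓 = 𝔓₂ := by
      rcases hall 𝔓 hovq with h' | h'
      · rw [h'] at hθ
        exact absurd hθ hv1.ne
      · exact h'
    have hne : 𝔓₁ ≠ 𝔓₂ := by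
      intro h'
      rw [h', hv2] at hv1
      exact absurd hv1 (lt_irrefl _)
    obtain ⟨hc1, hc2, hset⟩ := Pool.Agent.N426.PF.fac hp0 hqm hqp.ne_zero hne ov1 ov2 hQ1 hQ2 hall
    have ht1 : t - algebraMap (𝓞 F) (𝓞 L) 0 ∈ 𝔓₁.asIdeal := by
      rw [map_zero, sub_zero, ← 𝔓₁.valuation_lt_one_iff_mem (K := L)]
      change 𝔓₁.valuation L (algebraMap (𝓞 L) L t) < 1
      rw [ht]
      exact hv1
    have h1 := Pool.Agent.N426.PF.cn_deg_one hp hp0 ov1 (Pool.Agent.N426.PF.exists_res b hb ht1)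
    have hsum := Pool.Agent.N426.PF.cn_map b hp hp0
    rw [cn_sum _ (Pool.Agent.N426.PF.map_ne (L := L) hp0), hset,
      Finset.sum_pair (fun h' => hne (HeightOneSpectrum.ext h')), hc1, hc2, h1] at hsum
    have h2 : cn (𝓞 F) (𝔮 q) 𝔓₂.asIdeal = 2 * g := by omega
    rw [h𝔓, hw, h2]
    exact even_two_mul g

end Pool.Agent.Run7.h711.SR
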