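import Pool.Agent.Run7.h245.SR.Iface1
import Pool.Agent.N862.PF.TV

/-!
# Piece TVR of project SR (helper245)

By helper711, after `Pool/Agent/N862/PF/TV.lean` (helper862); the property `dual` of the lattice is not used there.
-/

set_option autoImplicit false
set_option linter.all false

open Polynomial IsDedekindDomain Matrix NumberField WithZero
open scoped Classical

namespace Pool.Agent.Run7.h711.SR

open Pool.Agent.Run7.h245.SR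
open Pool.Agent.N783.PF
open Pool.Agent.N862.PF
open Pool.Agent.N874.PP (Ev Sq1 U0)

/-- **TVR.** -/
theorem tvr (hI : S_INT) : S_TVR := by
  intro g F L _ _ _ _ _ f θ hG hsq m₀ α Λ hα hSD hLat 𝔮 hprime hq0 hsep hSq
  have hint := hI g F L f θ hG hsq
  obtain ⟨t, ht⟩ := theta_ex hG
  have hfin := fin_ov (L := L) hq0
  set T : Finset (HeightOneSpectrum (𝓞 L)) := hfin.toFinset with hT
  have hTm : ∀ 𝔓 : HeightOneSpectrum (𝓞 L), 𝔓 ∈ T ↔ Ov 𝔮 𝔓 := fun 𝔓 => by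
    rw [hT, Set.Finite.mem_toFinset]; rfl
  have hB : ∀ 𝔓 : HeightOneSpectrum (𝓞 L), ∃ (x : L) (u : 𝓞 L), 𝔓 ∈ T → (x ∈ Λ ∧
      algebraMap (𝓞 L) L u = x * x / α ∧
      u - 1 ∈ 𝔓.asIdeal ∧ ∀ 𝔓' ∈ T, 𝔓' ≠ 𝔓 → u ∈ 𝔓'.asIdeal) := by
    intro 𝔓
    by_cases h : 𝔓 ∈ T
    · obtain ⟨x, u, h1⟩ := stepB hα hSD (hSq 𝔓 ((hTm _).1 h)) T
      exact ⟨x, u, fun _ => h1⟩
    · exact ⟨0, 0, fun h' => absurd h' h⟩
  choose x u hxu using hB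
  obtain ⟨y, hydef⟩ : ∃ y : L, y = ∑ 𝔓 ∈ T, x 𝔓 := ⟨_, rfl⟩
  have hyΛ : y ∈ Λ := by
    rw [hydef]
    exact Submodule.sum_mem _ fun 𝔓 h => (hxu 𝔓 h).1
  -- the products
  have hW : ∀ 𝔓 𝔓' : HeightOneSpectrum (𝓞 L), ∃ w : 𝓞 L, 𝔓 ∈ T → 𝔓' ∈ T →
      algebraMap (𝓞 L) L w = x 𝔓 * x 𝔓' / α := by
    intro 𝔓 𝔓'
    by_cases h : 𝔓 ∈ T
    · by_cases h' : 𝔓' ∈ T
      · obtain ⟨w, hw⟩ := (int_iff _).1 (prod_int hSD (hxu 𝔓 h).1 (hxu 𝔓' h').1)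
        exact ⟨w, fun _ _ => hw⟩
      · exact ⟨0, fun _ h2 => absurd h2 h'⟩
    · exact ⟨0, fun h1 => absurd h1 h⟩
  choose w hw using hW
  have hinj : Function.Injective (algebraMap (𝓞 L) L) := IsFractionRing.injective (𝓞 L) L
  have hwsq : ∀ 𝔓 ∈ T, ∀ 𝔓' ∈ T, w 𝔓 𝔓' ^ 2 = u 𝔓 * u 𝔓' := by
    intro 𝔓 h 𝔓' h'
    apply hinj
    rw [map_pow, map_mul, hw 𝔓 𝔓' h h', (hxu 𝔓 h).2.1, (hxu 𝔓' h').2.1]
    ring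
  have hwd : ∀ 𝔓 ∈ T, w 𝔓 𝔓 = u 𝔓 := by
    intro 𝔓 h
    apply hinj
    rw [hw 𝔓 𝔓 h h, (hxu 𝔓 h).2.1]
  obtain ⟨z, hz⟩ : ∃ z : 𝓞 L, z = ∑ 𝔓 ∈ T, ∑ 𝔓' ∈ T, w 𝔓 𝔓' := ⟨_, rfl⟩
  have hzL : algebraMap (𝓞 L) L z = y ^ 2 / α := by
    rw [hz, map_sum, hydef, sq, Finset.sum_mul, Finset.sum_div]
    refine Finset.sum_congr rfl fun 𝔓 h => ?_
    rw [map_sum, Finset.mul_sum, Finset.sum_div]
    exact Finset.sum_congr rfl fun 𝔓' h' => hw 𝔓 𝔓' h h'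
  have hmemw : ∀ 𝔓₀ ∈ T, ∀ 𝔓 ∈ T, ∀ 𝔓' ∈ T, (𝔓 ≠ 𝔓₀ ∨ 𝔓' ≠ 𝔓₀) → w 𝔓 𝔓' ∈ 𝔓₀.asIdeal := by
    intro 𝔓₀ h0 𝔓 h 𝔓' h' hor
    apply 𝔓₀.isPrime.mem_of_pow_mem 2
    rw [hwsq 𝔓 h 𝔓' h']
    rcases hor with h1 | h1
    · exact 𝔓₀.asIdeal.mul_mem_right _ ((hxu 𝔓 h).2.2.2 𝔓₀ h0 h1.symm)
    · exact 𝔓₀.asIdeal.mul_mem_left _ ((hxu 𝔓' h').2.2.2 𝔓₀ h0 h1.symm)
  have hz1 : ∀ 𝔓 : HeightOneSpectrum (𝓞 L), Ov 𝔮 𝔓 → z - 1 ∈ 𝔓.asIdeal := by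
    intro 𝔓₀ hov
    have h0 : 𝔓₀ ∈ T := (hTm _).2 hov
    have e1 : z - 1 = (u 𝔓₀ - 1) + (∑ 𝔓' ∈ T.erase 𝔓₀, w 𝔓₀ 𝔓' +
        ∑ 𝔓 ∈ T.erase 𝔓₀, ∑ 𝔓' ∈ T, w 𝔓 𝔓') := by
      rw [hz, ← Finset.add_sum_erase _ _ h0, ← Finset.add_sum_erase _ (fun 𝔓' => w 𝔓₀ 𝔓') h0,
        hwd 𝔓₀ h0]
      ring
    rw [e1]
    refine 𝔓₀.asIdeal.add_mem (hxu 𝔓₀ h0).2.2.1 (𝔓₀.asIdeal.add_mem ?_ ?_)
    · refine Ideal.sum_mem _ fun 𝔓' h' => ?_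
      exact hmemw 𝔓₀ h0 𝔓₀ h0 𝔓' (Finset.mem_of_mem_erase h') (Or.inr (Finset.ne_of_mem_erase h'))
    · refine Ideal.sum_mem _ fun 𝔓 h => ?_
      refine Ideal.sum_mem _ fun 𝔓' h' => ?_
      exact hmemw 𝔓₀ h0 𝔓 (Finset.mem_of_mem_erase h) 𝔓' h' (Or.inl (Finset.ne_of_mem_erase h))
  obtain ⟨p, hp1, hp2⟩ := ex_poly hI hG hsq ht (z - 1)
  haveI : 𝔮.IsPrime := hprime
  haveI hmax : 𝔮.IsMaximal := hprime.isMaximal hq0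
  letI : Field (𝓞 F ⧸ 𝔮) := Ideal.Quotient.field 𝔮
  have hzero : p.map (Ideal.Quotient.mk 𝔮) = 0 := by
    refine key hI hG hsq ht hq0 (Ideal.Quotient.mk 𝔮)
      (fun a ha => Ideal.Quotient.eq_zero_iff_mem.2 ha) hsep p hp1 fun 𝔓 hov => ?_
    rw [hp2]
    exact hz1 𝔓 hov
  have hcoef : ∀ i, p.coeff i ∈ 𝔮 := by
    intro i
    have h1 := congrArg (fun r => coeff r i) hzero
    simp only [coeff_map, coeff_zero] at h1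
    exact Ideal.Quotient.eq_zero_iff_mem.1 h1
  refine ⟨y, hyΛ, 1, fun h1 => hprime.ne_top ((Ideal.eq_top_iff_one _).2 h1), fun m hm => ?_⟩
  -- the coefficients
  have hV : ∀ i : ℕ, ∃ b : 𝓞 F, (b : F) = hG.top (θ ^ (i + m)) := by
    intro i
    have h1 := top_int hG hint ((theta_int hG).pow (i + m))
    exact ⟨⟨_, h1⟩, rfl⟩
  choose b hb using hV
  refine ⟨∑ i ∈ Finset.range (2 * g + 1), p.coeff i * b i,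
    Ideal.sum_mem _ fun i _ => 𝔮.mul_mem_right _ (hcoef i), ?_⟩
  have h3 : θ ^ m * y ^ 2 / α = θ ^ m + ∑ i ∈ Finset.range (2 * g + 1),
      ((p.coeff i : 𝓞 F) : F) • θ ^ (i + m) := by
    have h4 : θ ^ m * y ^ 2 / α = θ ^ m * algebraMap (𝓞 L) L z := by
      rw [hzL]; ring
    have h5 : z = 1 + ev F t p := by rw [hp2]; ring
    rw [h4, h5, map_add, map_one, mul_add, mul_one, ev_L ht]
    congr 1
    rw [aeval_def, eval₂_eq_sum_range' (algebraMap (𝓞 F) L) (n := 2 * g + 1), Finset.mul_sum]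
    · refine Finset.sum_congr rfl fun i _ => ?_
      rw [Algebra.smul_def, IsScalarTower.algebraMap_apply (𝓞 F) F L, pow_add]
      ring
    · by_cases hr0 : p = 0
      · rw [hr0]; simp
      · exact (natDegree_lt_iff_degree_lt hr0).2 hp1
  rw [h3, map_add, map_sum, top_pow hG m hm]
  have h6 : ((∑ i ∈ Finset.range (2 * g + 1), p.coeff i * b i : 𝓞 F) : F) =
      ∑ i ∈ Finset.range (2 * g + 1), hG.top (((p.coeff i : 𝓞 F) : F) • θ ^ (i + m)) := by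
    have h7 : ((∑ i ∈ Finset.range (2 * g + 1), p.coeff i * b i : 𝓞 F) : F) =
        algebraMap (𝓞 F) F (∑ i ∈ Finset.range (2 * g + 1), p.coeff i * b i) := rfl
    rw [h7, map_sum]
    refine Finset.sum_congr rfl fun i _ => ?_
    rw [map_mul, map_smul, smul_eq_mul, ← hb i]
  rw [h6]
  split_ifs <;> simp

end Pool.Agent.Run7.h711.SR
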